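import Pool.Agent.N792.ACH.Sv

/-!
For almost all `l` the number of the primes `q ≤ u` for which `(c q)² + l²`, `c = 1, 2`, is a prime, is at most
`ε u / log u`, for all large `u` (helper792).
-/

set_option autoImplicit false

namespace Pool.Agent.N792.ACH

open Finset

open Classical in
/-- the number of the primes `q ≤ U` for which `(c q)² + l²` is a prime -/
noncomputable def D (c l U : ℕ) : ℕ := #((range (U + 1)).filter (fun q => q.Prime ∧ ((c * q) ^ 2 + l ^ 2).Prime))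

open Classical in
/-- few `l` have many classes -/
lemma bad_count {T : Finset ℕ} (hT : ∀ p ∈ T, p.Prime ∧ p % 4 = 1) {c : ℕ} (hc : c = 1 ∨ c = 2) {η δ : ℝ} (hη : 0 < η)
    (hδ : ∏ p ∈ T, (1 - 2 / (p : ℝ)) ≤ δ) {L : ℕ} (hL : ∏ p ∈ T, p ≤ L) :
    (#((range (L + 1)).filter (fun l => ¬ ((#(Rs c (∏ p ∈ T, p) l) : ℝ) ≤ η * Nat.totient (∏ p ∈ T, p)))) : ℝ) ≤
      3 * δ / η * L := by
  have hs := sum_Rs hT hc
  obtain ⟨P, hP⟩ : ∃ P : ℕ, P = ∏ p ∈ T, p := ⟨_, rfl⟩
  have hPf : P.primeFactors = T := by rw [hP]; exact prodT hT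
  rw [← hP] at hs hL ⊢
  have hP0 : 0 < P := by rw [hP]; exact prod_pos (fun p hp => (hT p hp).1.pos)
  have hPR : (0 : ℝ) < P := by exact_mod_cast hP0
  have hphi : (0 : ℝ) < Nat.totient P := by exact_mod_cast Nat.totient_pos.2 hP0
  obtain ⟨B, hB⟩ : ∃ B : Finset ℕ, B = (range P).filter (fun l => ¬ ((#(Rs c P l) : ℝ) ≤ η * Nat.totient P)) := ⟨_, rfl⟩
  have h1 : (#B : ℝ) * (η * Nat.totient P) ≤ Nat.totient P * (P * δ) := by
    calc (#B : ℝ) * (η * Nat.totient P) = ∑ l ∈ B, η * (Nat.totient P : ℝ) := by rw [sum_const, nsmul_eq_mul]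
      _ ≤ ∑ l ∈ B, (#(Rs c P l) : ℝ) := by
          apply sum_le_sum
          intro l hl
          rw [hB, mem_filter] at hl
          exact (not_le.1 hl.2).le
      _ ≤ ∑ l ∈ range P, (#(Rs c P l) : ℝ) := by
          apply sum_le_sum_of_subset_of_nonneg
          · rw [hB]; exact filter_subset _ _
          · intros; positivity
      _ ≤ _ := hs
      _ ≤ _ := by gcongr
  have h2 : (#B : ℝ) ≤ P * δ / η := by
    rw [le_div_iff₀ hη]
    have : (Nat.totient P : ℝ) * ((#B : ℝ) * η) ≤ Nat.totient P * (P * δ) := by linarith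
    exact le_of_mul_le_mul_left this hphi
  have hper : ∀ l : ℕ, Rs c P (l % P) = Rs c P l := by
    intro l
    unfold Rs
    ext a
    rw [mem_filter, mem_filter]
    refine and_congr_right fun _ => and_congr_right fun _ => ?_
    refine forall₂_congr fun p hp => not_congr ?_
    have hpP : p ∣ P := Nat.dvd_of_mem_primeFactors hp
    rw [Nat.dvd_iff_mod_eq_zero, Nat.dvd_iff_mod_eq_zero]
    have : ((c * a) ^ 2 + (l % P) ^ 2) % p = ((c * a) ^ 2 + l ^ 2) % p := by
      rw [Nat.add_mod, Nat.pow_mod (l % P), Nat.mod_mod_of_dvd _ hpP, ← Nat.pow_mod, ← Nat.add_mod]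
    rw [this]
  have h3 : (range (L + 1)).filter (fun l => ¬ ((#(Rs c P l) : ℝ) ≤ η * Nat.totient P)) ⊆
      B.biUnion (fun b => (range (L + 1)).filter (fun l => l ≡ b [MOD P])) := by
    intro l hl
    rw [mem_filter] at hl
    rw [mem_biUnion]
    refine ⟨l % P, ?_, ?_⟩
    · rw [hB, mem_filter, mem_range, hper]
      exact ⟨Nat.mod_lt _ hP0, hl.2⟩
    · rw [mem_filter]
      exact ⟨hl.1, (Nat.mod_modEq l P).symm⟩
  have h4 : ∀ b : ℕ, #((range (L + 1)).filter (fun l => l ≡ b [MOD P])) ≤ (L + 1) / P + 1 := by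
    intro b
    have := Nat.count_modEq_card (L + 1) hP0 b
    rw [Nat.count_eq_card_filter_range] at this
    have e : #((range (L + 1)).filter (fun l => l ≡ b [MOD P])) = #{x ∈ range (L + 1) | x ≡ b [MOD P]} := by
      congr 1
    rw [e, this]
    split_ifs <;> omega
  have h5 : #((range (L + 1)).filter (fun l => ¬ ((#(Rs c P l) : ℝ) ≤ η * Nat.totient P))) ≤ #B * ((L + 1) / P + 1) := by
    refine (card_le_card h3).trans (card_biUnion_le.trans ?_)
    refine (sum_le_sum fun b _ => h4 b).trans ?_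
    rw [sum_const, smul_eq_mul]
  have h6 : (((L + 1) / P + 1 : ℕ) : ℝ) ≤ 3 * L / P := by
    have e1 : (((L + 1) / P : ℕ) : ℝ) ≤ ((L + 1 : ℕ) : ℝ) / P := Nat.cast_div_le
    push_cast at e1 ⊢
    have e2 : (P : ℝ) ≤ L := by exact_mod_cast hL
    have e3 : (1 : ℝ) ≤ P := by exact_mod_cast hP0
    rw [le_div_iff₀ hPR]
    rw [le_div_iff₀ hPR] at e1
    nlinarith
  have hB0 : (0 : ℝ) ≤ P * δ / η := (Nat.cast_nonneg _).trans h2
  calc (#((range (L + 1)).filter (fun l => ¬ ((#(Rs c P l) : ℝ) ≤ η * Nat.totient P))) : ℝ)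
      ≤ (#B : ℝ) * (((L + 1) / P + 1 : ℕ) : ℝ) := by exact_mod_cast h5
    _ ≤ (P * δ / η) * (3 * L / P) := mul_le_mul h2 h6 (Nat.cast_nonneg _) hB0
    _ = 3 * δ / η * L := by field_simp

open Classical in
/-- the cover by the classes -/
lemma D_le {P : ℕ} (hP0 : 0 < P) (c l U : ℕ) (hc : 1 ≤ c) : D c l U ≤
    P + ∑ a ∈ Rs c P l, #((range (U / P + 1)).filter (fun k => (a + k * P).Prime)) := by
  unfold D
  have h1 : (range (U + 1)).filter (fun q => q.Prime ∧ ((c * q) ^ 2 + l ^ 2).Prime) ⊆ Icc 1 P ∪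
      (Rs c P l).biUnion (fun a => ((range (U / P + 1)).filter (fun k => (a + k * P).Prime)).image (fun k => a + k * P)) := by
    intro q hq
    rw [mem_filter, mem_range] at hq
    obtain ⟨hqU, hqp, hq2⟩ := hq
    rw [mem_union]
    rcases Nat.lt_or_ge P q with h | h
    · right
      rw [mem_biUnion]
      have e : q % P + q / P * P = q := by rw [mul_comm]; exact Nat.mod_add_div q P
      refine ⟨q % P, ?_, ?_⟩
      · unfold Rs
        rw [mem_filter, mem_range]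
        refine ⟨Nat.mod_lt _ hP0, ?_, ?_⟩
        · have h2 : Nat.Coprime P q := by
            rw [Nat.coprime_comm, Nat.Prime.coprime_iff_not_dvd hqp]
            intro hd
            exact absurd (Nat.le_of_dvd hP0 hd) (by omega)
          unfold Nat.Coprime
          rw [Nat.gcd_comm, ← Nat.gcd_rec]
          exact h2
        · intro p hp hd
          have hpP : p ∣ P := Nat.dvd_of_mem_primeFactors hp
          have hpp : p.Prime := Nat.prime_of_mem_primeFactors hp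
          have h3 : p ∣ (c * q) ^ 2 + l ^ 2 := by
            rw [Nat.dvd_iff_mod_eq_zero] at hd ⊢
            rw [← hd]
            have e1 : (c * (q % P)) % p = (c * q) % p := by
              rw [Nat.mul_mod, Nat.mod_mod_of_dvd _ hpP, ← Nat.mul_mod]
            rw [Nat.add_mod, Nat.pow_mod (c * q), ← e1, ← Nat.pow_mod, ← Nat.add_mod]
          have h4 := (Nat.prime_dvd_prime_iff_eq hpp hq2).1 h3
          have h5 := Nat.le_of_dvd hP0 hpP
          rw [h4] at h5
          have h6 : q ≤ (c * q) ^ 2 := by nlinarith [Nat.le_mul_of_pos_left q hc]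
          omega
      · rw [mem_image]
        refine ⟨q / P, ?_, e⟩
        rw [mem_filter, mem_range, e]
        exact ⟨Nat.lt_succ_of_le (Nat.div_le_div_right (by omega)), hqp⟩
    · left
      rw [mem_Icc]
      exact ⟨hqp.one_lt.le, h⟩
  refine (card_le_card h1).trans ((card_union_le _ _).trans ?_)
  rw [Nat.card_Icc]
  refine Nat.add_le_add (by omega) (card_biUnion_le.trans ?_)
  exact sum_le_sum fun a _ => card_image_le

/-- the pointwise bound -/
lemma pointwise : ∃ C : ℝ, 1 ≤ C ∧ ∀ (P c l U : ℕ) (η : ℝ), 0 < P → 1 ≤ c → P ^ 2 ≤ U → 4 ≤ U →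
    (#(Rs c P l) : ℝ) ≤ η * Nat.totient P → (D c l U : ℝ) ≤ P + C * η * (U / Real.log U) := by
  classical
  obtain ⟨C, hC, hBT⟩ := Pool.Agent.Helper602.MK.BTLib.brun_titchmarsh
  refine ⟨4 * C, by linarith, ?_⟩
  intro P c l U η hP0 hc hPU hU4 hR
  have hPR : (0 : ℝ) < P := by exact_mod_cast hP0
  have hP1 : (1 : ℝ) ≤ P := by exact_mod_cast hP0
  have hphi : (0 : ℝ) < Nat.totient P := by exact_mod_cast Nat.totient_pos.2 hP0
  have hU4' : (4 : ℝ) ≤ U := by exact_mod_cast hU4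
  have hPU' : (P : ℝ) ^ 2 ≤ U := by exact_mod_cast hPU
  have hlogU : 0 < Real.log U := Real.log_pos (by linarith)
  have hPleU : P ≤ U := le_trans (by nlinarith) hPU
  have hN2 : 2 ≤ U / P + 1 := by
    have : 1 ≤ U / P := (Nat.one_le_div_iff hP0).2 hPleU
    omega
  have hN1 : ((U / P + 1 : ℕ) : ℝ) ≤ 2 * U / P := by
    have e1 : ((U / P : ℕ) : ℝ) ≤ (U : ℝ) / P := Nat.cast_div_le
    push_cast
    have e2 : (P : ℝ) ≤ U := by exact_mod_cast hPleU
    have e3 : 1 ≤ (U : ℝ) / P := by rw [le_div_iff₀ hPR]; linarith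
    have e4 : 2 * (U : ℝ) / P = U / P + U / P := by ring
    rw [e4]; linarith
  have hN3 : (U : ℝ) / P ≤ ((U / P + 1 : ℕ) : ℝ) := by
    rw [div_le_iff₀ hPR]
    have e1 : U ≤ (U / P + 1) * P := by
      have e2 := Nat.div_add_mod U P
      have e3 := Nat.mod_lt U hP0
      nlinarith
    exact_mod_cast e1
  have hN4 : Real.log U / 2 ≤ Real.log ((U / P + 1 : ℕ) : ℝ) := by
    have e1 : Real.sqrt U ≤ (U : ℝ) / P := by
      rw [le_div_iff₀ hPR]
      have e2 : (P : ℝ) ≤ Real.sqrt U := Real.le_sqrt_of_sq_le hPU'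
      calc Real.sqrt U * P ≤ Real.sqrt U * Real.sqrt U := by gcongr
        _ = U := Real.mul_self_sqrt (by linarith)
    have e3 : Real.log U / 2 = Real.log (Real.sqrt U) := by
      rw [Real.log_sqrt (by linarith)]
    rw [e3]
    apply Real.log_le_log (Real.sqrt_pos.2 (by linarith))
    exact e1.trans hN3
  have h1 : ∀ a : ℕ, (#((range (U / P + 1)).filter (fun k => (a + k * P).Prime)) : ℝ) ≤
      4 * C * (1 / Nat.totient P) * (U / Real.log U) := by
    intro a
    have e1 := hBT a P (U / P + 1) hP0 hN2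
    refine (le_trans (le_of_eq ?_) e1).trans ?_
    · congr 1
    · have e2 : C * ((P : ℝ) / (Nat.totient P : ℝ)) * ((U / P + 1 : ℕ) : ℝ) / Real.log ((U / P + 1 : ℕ) : ℝ) ≤
          C * ((P : ℝ) / (Nat.totient P : ℝ)) * (2 * U / P) / (Real.log U / 2) := by
        gcongr
      refine e2.trans (le_of_eq ?_)
      field_simp
      ring
  have h2 := D_le hP0 c l U hc
  calc (D c l U : ℝ) ≤ P + ∑ a ∈ Rs c P l, (#((range (U / P + 1)).filter (fun k => (a + k * P).Prime)) : ℝ) := by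
        exact_mod_cast h2
    _ ≤ P + ∑ a ∈ Rs c P l, 4 * C * (1 / (Nat.totient P : ℝ)) * (U / Real.log U) := by
        gcongr with a ha
        exact h1 a
    _ = P + #(Rs c P l) * (4 * C * (1 / (Nat.totient P : ℝ)) * (U / Real.log U)) := by rw [sum_const, nsmul_eq_mul]
    _ ≤ P + (η * Nat.totient P) * (4 * C * (1 / (Nat.totient P : ℝ)) * (U / Real.log U)) := by
        gcongr
    _ = P + 4 * C * η * (U / Real.log U) := by field_simp

open Classical in
/-- **the deviation is small for almost all `l`** -/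
theorem almost_D {ε : ℝ} (hε : 0 < ε) {c : ℕ} (hc : c = 1 ∨ c = 2) : ∃ (L₀ : ℕ) (u₀ : ℝ), ∀ L : ℕ, L₀ ≤ L →
    (#((range (L + 1)).filter (fun l => ¬ ∀ u : ℝ, u₀ ≤ u → (D c l ⌊u⌋₊ : ℝ) ≤ ε * (u / Real.log u))) : ℝ) ≤ ε * L := by
  obtain ⟨C, hC, hpt⟩ := pointwise
  obtain ⟨η, hη⟩ : ∃ η : ℝ, η = ε / (4 * C) := ⟨_, rfl⟩
  have hη0 : 0 < η := by rw [hη]; positivity
  obtain ⟨T, hT, hTδ⟩ := exists_T (δ := η * ε / 3) (by positivity)
  obtain ⟨P, hP⟩ : ∃ P : ℕ, P = ∏ p ∈ T, p := ⟨_, rfl⟩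
  have hP0 : 0 < P := by rw [hP]; exact prod_pos (fun p hp => (hT p hp).1.pos)
  have hPR : (0 : ℝ) < P := by exact_mod_cast hP0
  -- large `u`
  have hlim : ∀ᶠ u : ℝ in Filter.atTop, (P : ℝ) ≤ ε / 2 * (u / Real.log u) := by
    have h1 := Real.isLittleO_log_id_atTop
    have h2 := h1.def (show (0 : ℝ) < ε / (2 * P) by positivity)
    filter_upwards [h2, Filter.eventually_gt_atTop 1] with u hu hu1
    have hlog : 0 < Real.log u := Real.log_pos hu1
    rw [Real.norm_of_nonneg hlog.le, id, Real.norm_of_nonneg (by linarith)] at hu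
    rw [← mul_div_assoc, le_div_iff₀ hlog]
    calc (P : ℝ) * Real.log u ≤ P * (ε / (2 * P) * u) := by gcongr
      _ = ε / 2 * u := by field_simp
  obtain ⟨u₁, hu₁⟩ := Filter.eventually_atTop.1 hlim
  refine ⟨P, max u₁ ((P : ℝ) ^ 2 + 5), fun L hL => ?_⟩
  have hb := bad_count hT hc hη0 hTδ (L := L) (by rw [← hP]; exact hL)
  rw [← hP] at hb
  have e : 3 * (η * ε / 3) / η * (L : ℝ) = ε * L := by field_simp
  rw [e] at hb
  refine le_trans ?_ hb
  rw [Nat.cast_le]
  apply card_le_card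
  intro l hl
  rw [mem_filter] at hl ⊢
  refine ⟨hl.1, fun hR => hl.2 fun u hu => ?_⟩
  have hu1 : u₁ ≤ u := le_trans (le_max_left _ _) hu
  have hu2 : (P : ℝ) ^ 2 + 5 ≤ u := le_trans (le_max_right _ _) hu
  have hu5 : 5 ≤ u := by nlinarith [sq_nonneg (P : ℝ)]
  have hfl : (P : ℝ) ^ 2 + 4 ≤ (⌊u⌋₊ : ℝ) := by
    have := (Nat.lt_floor_add_one u).le
    linarith
  have hP2 : P ^ 2 ≤ ⌊u⌋₊ := by
    have : ((P ^ 2 : ℕ) : ℝ) ≤ (⌊u⌋₊ : ℝ) := by push_cast; linarith
    exact_mod_cast this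
  have hU4 : 4 ≤ ⌊u⌋₊ := by
    have : ((4 : ℕ) : ℝ) ≤ (⌊u⌋₊ : ℝ) := by push_cast; nlinarith [sq_nonneg (P : ℝ)]
    exact_mod_cast this
  have h1 := hpt P c l ⌊u⌋₊ η hP0 (by omega) hP2 hU4 hR
  have h2 : (⌊u⌋₊ : ℝ) / Real.log (⌊u⌋₊ : ℝ) ≤ 2 * (u / Real.log u) := by
    have e1 : (⌊u⌋₊ : ℝ) ≤ u := Nat.floor_le (by linarith)
    have e2 : u / 2 ≤ (⌊u⌋₊ : ℝ) := by
      have := (Nat.lt_floor_add_one u).le
      linarith
    have e3 : Real.sqrt u ≤ u / 2 := by
      rw [Real.sqrt_le_left (by linarith)]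
      nlinarith
    have hlogu : 0 < Real.log u := Real.log_pos (by linarith)
    have e4 : Real.log u / 2 ≤ Real.log (⌊u⌋₊ : ℝ) := by
      have e5 : Real.log u / 2 = Real.log (Real.sqrt u) := by
        rw [Real.log_sqrt (by linarith)]
      rw [e5]
      exact Real.log_le_log (Real.sqrt_pos.2 (by linarith)) (e3.trans e2)
    calc (⌊u⌋₊ : ℝ) / Real.log (⌊u⌋₊ : ℝ) ≤ u / (Real.log u / 2) := by gcongr
      _ = 2 * (u / Real.log u) := by field_simp
  have hC0 : C ≠ 0 := by linarith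
  calc (D c l ⌊u⌋₊ : ℝ) ≤ P + C * η * (⌊u⌋₊ / Real.log (⌊u⌋₊ : ℝ)) := h1
    _ ≤ ε / 2 * (u / Real.log u) + C * η * (2 * (u / Real.log u)) := by
        gcongr
        exact hu₁ u hu1
    _ = ε * (u / Real.log u) := by
        rw [hη]
        field_simp
        ring

end Pool.Agent.N792.ACH
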