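import Pool.Agent.N782.GN.All2
import Pool.Agent.N792.ACH.Sv2
import Pool.Agent.Erdos456.Mertens

/-!
The two families, the constant, and the lower bound for the constant for almost all `l` (helper792).
-/

set_option autoImplicit false

namespace Pool.Agent.N792.ACH

open Finset Filter Topology

/-- the factor of an odd prime -/
noncomputable def gf (p : ℕ) : ℝ := 1 - ((ZMod.χ₄ (p : ZMod 4) : ℤ) : ℝ) / ((p : ℝ) - 1)

lemma gf_bounds {p : ℕ} (hp : 3 ≤ p) : 0 < gf p ∧ gf p * (1 - 1 / (p : ℝ)) ≤ 1 := by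
  have hpR : (3 : ℝ) ≤ p := by exact_mod_cast hp
  have hp1 : (0 : ℝ) < (p : ℝ) - 1 := by linarith
  have hx : ((ZMod.χ₄ (p : ZMod 4) : ℤ) : ℝ) = 0 ∨ ((ZMod.χ₄ (p : ZMod 4) : ℤ) : ℝ) = 1 ∨
      ((ZMod.χ₄ (p : ZMod 4) : ℤ) : ℝ) = -1 := by
    have : ∀ a : ZMod 4, ZMod.χ₄ a = 0 ∨ ZMod.χ₄ a = 1 ∨ ZMod.χ₄ a = -1 := by decide
    rcases this (p : ZMod 4) with h | h | h <;> rw [h] <;> norm_num
  have h1 : (1 : ℝ) / ((p : ℝ) - 1) ≤ 1 / 2 := by
    rw [div_le_div_iff₀ hp1 (by norm_num)]; linarith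
  have h0 : 0 < (1 : ℝ) / ((p : ℝ) - 1) := by positivity
  have h2 : gf p ≤ 1 + 1 / ((p : ℝ) - 1) := by
    unfold gf
    rcases hx with h | h | h <;> rw [h]
    · rw [zero_div]; linarith
    · linarith
    · rw [neg_div]; linarith
  have h3 : 0 < gf p := by
    unfold gf
    rcases hx with h | h | h <;> rw [h]
    · rw [zero_div]; linarith
    · linarith
    · rw [neg_div]; linarith
  refine ⟨h3, ?_⟩
  have h4 : 0 ≤ 1 - 1 / (p : ℝ) := by
    have : (1 : ℝ) / p ≤ 1 := by rw [div_le_one (by linarith)]; linarith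
    linarith
  calc gf p * (1 - 1 / (p : ℝ)) ≤ (1 + 1 / ((p : ℝ) - 1)) * (1 - 1 / (p : ℝ)) := by gcongr
    _ = 1 := by
        have e1 : (p : ℝ) - 1 ≠ 0 := hp1.ne'
        have e2 : (p : ℝ) ≠ 0 := by linarith
        field_simp
        ring

lemma pp_ge {l : ℕ} (hl : 0 < l) (z : ℕ) :
    Pool.Agent.N782.GN.pp 1 z * ((Nat.totient l : ℝ) / l) ≤ Pool.Agent.N782.GN.pp l z := by
  classical
  have hlR : (0 : ℝ) < l := by exact_mod_cast hl
  obtain ⟨S, hS⟩ : ∃ S : Finset ℕ, S = (Icc 3 z).filter Nat.Prime := ⟨_, rfl⟩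
  have hS3 : ∀ p ∈ S, 3 ≤ p ∧ p.Prime := by
    intro p hp
    rw [hS, mem_filter, mem_Icc] at hp
    exact ⟨hp.1.1, hp.2⟩
  have e1 : Pool.Agent.N782.GN.pp 1 z = ∏ p ∈ S, gf p := by
    unfold Pool.Agent.N782.GN.pp
    rw [hS]
    apply prod_congr
    · ext p
      simp only [mem_filter]
      constructor
      · rintro ⟨h1, h2, -⟩; exact ⟨h1, h2⟩
      · rintro ⟨h1, h2⟩
        refine ⟨h1, h2, fun h => ?_⟩
        have h3 : p ∣ 1 := by exact_mod_cast h
        exact h2.one_lt.ne' (Nat.dvd_one.1 h3)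
    · intro p _; rfl
  have e2 : Pool.Agent.N782.GN.pp l z = ∏ p ∈ S.filter (fun p => ¬ p ∣ l), gf p := by
    unfold Pool.Agent.N782.GN.pp
    rw [hS, filter_filter]
    apply prod_congr
    · ext p
      simp only [mem_filter]
      rw [Int.natCast_dvd_natCast]
    · intro p _; rfl
  have e3 : (∏ p ∈ S.filter (fun p => p ∣ l), gf p) * ∏ p ∈ S.filter (fun p => ¬ p ∣ l), gf p = ∏ p ∈ S, gf p :=
    prod_filter_mul_prod_filter_not S _ _
  have h0 : 0 ≤ ∏ p ∈ S.filter (fun p => ¬ p ∣ l), gf p :=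
    prod_nonneg fun p hp => (gf_bounds (hS3 p (mem_filter.1 hp).1).1).1.le
  have h1 : (Nat.totient l : ℝ) / l = ∏ p ∈ l.primeFactors, (1 - 1 / (p : ℝ)) := by
    have := Nat.totient_eq_mul_prod_factors l
    have h2 : (Nat.totient l : ℝ) = l * ∏ p ∈ l.primeFactors, (1 - (p : ℝ)⁻¹) := by
      have h3 := congrArg (fun x : ℚ => (x : ℝ)) this
      push_cast at h3
      exact h3
    rw [h2, mul_div_cancel_left₀ _ hlR.ne']
    simp [one_div]
  have hsub : S.filter (fun p => p ∣ l) ⊆ l.primeFactors := by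
    intro p hp
    rw [mem_filter] at hp
    rw [Nat.mem_primeFactors]
    exact ⟨(hS3 p hp.1).2, hp.2, hl.ne'⟩
  have hf : ∀ p : ℕ, 2 ≤ p → 0 ≤ 1 - 1 / (p : ℝ) ∧ 1 - 1 / (p : ℝ) ≤ 1 := by
    intro p hp
    have hpR : (2 : ℝ) ≤ p := by exact_mod_cast hp
    have : (1 : ℝ) / p ≤ 1 := by rw [div_le_one (by linarith)]; linarith
    have : 0 ≤ (1 : ℝ) / p := by positivity
    constructor <;> linarith
  have h2 : (∏ p ∈ S.filter (fun p => p ∣ l), gf p) * ((Nat.totient l : ℝ) / l) ≤ 1 := by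
    rw [h1, ← prod_sdiff hsub]
    have h3 : ∏ p ∈ l.primeFactors \ S.filter (fun p => p ∣ l), (1 - 1 / (p : ℝ)) ≤ 1 := by
      apply prod_le_one
      · intro p hp
        exact (hf p (Nat.prime_of_mem_primeFactors (mem_sdiff.1 hp).1).two_le).1
      · intro p hp
        exact (hf p (Nat.prime_of_mem_primeFactors (mem_sdiff.1 hp).1).two_le).2
    have h4 : (∏ p ∈ S.filter (fun p => p ∣ l), gf p) * ∏ p ∈ S.filter (fun p => p ∣ l), (1 - 1 / (p : ℝ)) ≤ 1 := by
      rw [← prod_mul_distrib]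
      apply prod_le_one
      · intro p hp
        have := hS3 p (mem_filter.1 hp).1
        exact mul_nonneg (gf_bounds this.1).1.le (hf p (by omega)).1
      · intro p hp
        exact (gf_bounds (hS3 p (mem_filter.1 hp).1).1).2
    have h5 : 0 ≤ (∏ p ∈ S.filter (fun p => p ∣ l), gf p) * ∏ p ∈ S.filter (fun p => p ∣ l), (1 - 1 / (p : ℝ)) := by
      apply mul_nonneg
      · exact prod_nonneg fun p hp => (gf_bounds (hS3 p (mem_filter.1 hp).1).1).1.le
      · exact prod_nonneg fun p hp => (hf p (by have := (hS3 p (mem_filter.1 hp).1).1; omega)).1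
    nlinarith
  rw [e1, ← e3, e2]
  calc (∏ p ∈ S.filter (fun p => p ∣ l), gf p) * (∏ p ∈ S.filter (fun p => ¬ p ∣ l), gf p) * ((Nat.totient l : ℝ) / l)
      = (∏ p ∈ S.filter (fun p => ¬ p ∣ l), gf p) *
        ((∏ p ∈ S.filter (fun p => p ∣ l), gf p) * ((Nat.totient l : ℝ) / l)) := by ring
    _ ≤ (∏ p ∈ S.filter (fun p => ¬ p ∣ l), gf p) * 1 := by gcongr
    _ = _ := by rw [mul_one]

lemma SS_ge {l : ℕ} (hl : 0 < l) :
    Pool.Agent.N782.GN.SS 1 * ((Nat.totient l : ℝ) / l) ≤ Pool.Agent.N782.GN.SS l := by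
  have h1 := (Pool.Agent.N782.GN.c_ssl 1 (by norm_num)).1
  have h2 := (Pool.Agent.N782.GN.c_ssl (l : ℤ) (by omega)).1
  exact le_of_tendsto_of_tendsto' (h1.mul_const _) h2 (fun z => pp_ge hl z)

/-- **the constant is bounded below for almost all `l`** -/
lemma few_small {ε : ℝ} (hε : 0 < ε) : ∃ κ : ℝ, 0 < κ ∧ ∀ L : ℕ,
    (#((Icc 1 L).filter (fun l : ℕ => Pool.Agent.N782.GN.SS l < κ)) : ℝ) ≤ ε * L := by
  classical
  obtain ⟨K, hK⟩ := Pool.Agent.Erdos456.Mert.totRatio_moment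
  have hS1 := (Pool.Agent.N782.GN.c_ssl 1 (by norm_num)).2
  obtain ⟨t, ht⟩ : ∃ t : ℝ, t = max 1 (K / ε) := ⟨_, rfl⟩
  have ht1 : 1 ≤ t := by rw [ht]; exact le_max_left _ _
  have htK : K ≤ ε * t := by
    have : K / ε ≤ t := by rw [ht]; exact le_max_right _ _
    rw [div_le_iff₀ hε] at this
    linarith
  refine ⟨Pool.Agent.N782.GN.SS 1 / t, by positivity, fun L => ?_⟩
  have h1 : ∀ l ∈ (Icc 1 L).filter (fun l : ℕ => Pool.Agent.N782.GN.SS l < Pool.Agent.N782.GN.SS 1 / t),
      t ≤ ((l : ℝ) / (Nat.totient l : ℝ)) ^ 6 := by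
    intro l hl
    rw [mem_filter, mem_Icc] at hl
    have hl0 : 0 < l := hl.1.1
    have hlR : (0 : ℝ) < l := by exact_mod_cast hl0
    have hphi : (0 : ℝ) < Nat.totient l := by exact_mod_cast Nat.totient_pos.2 hl0
    have h2 := (SS_ge hl0).trans_lt hl.2
    rw [lt_div_iff₀ (by linarith), mul_assoc] at h2
    have h3 : (Nat.totient l : ℝ) / l * t < 1 := by
      by_contra hcon
      push Not at hcon
      have := mul_le_mul_of_nonneg_left hcon hS1.le
      linarith
    have h4 : t ≤ (l : ℝ) / Nat.totient l := by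
      rw [le_div_iff₀ hphi]
      rw [div_mul_eq_mul_div, div_lt_one hlR] at h3
      linarith
    calc t ≤ t ^ 6 := le_self_pow₀ ht1 (by norm_num)
      _ ≤ _ := by gcongr
  have h2 : (#((Icc 1 L).filter (fun l : ℕ => Pool.Agent.N782.GN.SS l < Pool.Agent.N782.GN.SS 1 / t)) : ℝ) * t ≤ K * L := by
    calc (#((Icc 1 L).filter (fun l : ℕ => Pool.Agent.N782.GN.SS l < Pool.Agent.N782.GN.SS 1 / t)) : ℝ) * t
        = ∑ l ∈ (Icc 1 L).filter (fun l : ℕ => Pool.Agent.N782.GN.SS l < Pool.Agent.N782.GN.SS 1 / t), t := by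
          rw [sum_const, nsmul_eq_mul]
      _ ≤ ∑ l ∈ (Icc 1 L).filter (fun l : ℕ => Pool.Agent.N782.GN.SS l < Pool.Agent.N782.GN.SS 1 / t),
          ((l : ℝ) / (Nat.totient l : ℝ)) ^ 6 := sum_le_sum h1
      _ ≤ ∑ l ∈ Icc 1 L, ((l : ℝ) / (Nat.totient l : ℝ)) ^ 6 :=
          sum_le_sum_of_subset_of_nonneg (filter_subset _ _) (fun _ _ _ => by positivity)
      _ ≤ K * L := hK L
  have ht0 : 0 < t := by linarith
  have h3 : (#((Icc 1 L).filter (fun l : ℕ => Pool.Agent.N782.GN.SS l < Pool.Agent.N782.GN.SS 1 / t)) : ℝ) * t ≤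
      (ε * L) * t := by
    refine h2.trans ?_
    have hL0 : (0 : ℝ) ≤ L := Nat.cast_nonneg _
    nlinarith
  exact le_of_mul_le_mul_right h3 ht0

/-- the primes `m² + l²`, `m ≤ U` -/
def Ps (l U : ℕ) : Finset ℕ := (Icc 1 U).filter (fun m => (m ^ 2 + l ^ 2).Prime)

open Classical in
/-- the family `m = 2 q n` -/
noncomputable def As (l U : ℕ) : Finset ℕ := (Icc 1 U).filter (fun m => (∃ q n : ℕ, q.Prime ∧ 1 < n ∧ m = 2 * q * n) ∧
  (m ^ 2 + l ^ 2).Prime)

open Classical in
/-- the family `m = (2 n + 1) q` -/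
noncomputable def Bs (l U : ℕ) : Finset ℕ := (Icc 1 U).filter (fun m => (∃ q n : ℕ, q.Prime ∧ 1 ≤ n ∧ m = (2 * n + 1) * q) ∧
  (m ^ 2 + (2 * l) ^ 2).Prime)

lemma As_le (l U : ℕ) : #(As l U) ≤ #(Ps l U) := by
  classical
  apply card_le_card
  intro m hm
  unfold As at hm
  unfold Ps
  rw [mem_filter] at hm ⊢
  exact ⟨hm.1, hm.2.2⟩

lemma Bs_le (l U : ℕ) : #(Bs l U) ≤ #(Ps (2 * l) U) := by
  classical
  apply card_le_card
  intro m hm
  unfold Bs at hm
  unfold Ps
  rw [mem_filter] at hm ⊢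
  exact ⟨hm.1, hm.2.2⟩

lemma le_As {l : ℕ} (hl : Odd l) (U : ℕ) : #(Ps l U) ≤ #(As l U) + 2 + D 2 l U := by
  classical
  have h1 : Ps l U ⊆ (As l U ∪ {1, 2}) ∪
      ((range (U + 1)).filter (fun q => q.Prime ∧ ((2 * q) ^ 2 + l ^ 2).Prime)).image (fun q => 2 * q) := by
    intro m hm
    unfold Ps at hm
    rw [mem_filter, mem_Icc] at hm
    obtain ⟨⟨hm1, hmU⟩, hmp⟩ := hm
    rw [mem_union, mem_union]
    rcases Nat.even_or_odd m with he | ho
    · obtain ⟨k, hk⟩ := he
      have hk2 : m = 2 * k := by omega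
      by_cases hk1 : k = 1
      · left; right
        rw [hk2, hk1]; simp
      · by_cases hkp : k.Prime
        · right
          rw [mem_image]
          refine ⟨k, ?_, hk2.symm⟩
          rw [mem_filter, mem_range]
          exact ⟨by omega, hkp, by rw [← hk2]; exact hmp⟩
        · left; left
          unfold As
          rw [mem_filter, mem_Icc]
          have hk0 : 2 ≤ k := by omega
          have hq := Nat.minFac_prime (n := k) (by omega)
          refine ⟨⟨hm1, hmU⟩, ⟨k.minFac, k / k.minFac, hq, ?_, ?_⟩, hmp⟩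
          · have h2 : k.minFac < k := (Nat.not_prime_iff_minFac_lt hk0).1 hkp
            by_contra hcon
            push Not at hcon
            have h3 := Nat.div_mul_cancel (Nat.minFac_dvd k)
            have h4 : k ≤ k.minFac := by
              calc k = k / k.minFac * k.minFac := h3.symm
                _ ≤ 1 * k.minFac := Nat.mul_le_mul_right _ hcon
                _ = _ := one_mul _
            omega
          · rw [mul_assoc, Nat.mul_div_cancel' (Nat.minFac_dvd k), hk2]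
    · left; right
      have he : Even (m ^ 2 + l ^ 2) := (ho.pow).add_odd hl.pow
      have h2 : m ^ 2 + l ^ 2 = 2 := (Nat.Prime.even_iff hmp).1 he
      have hl1 : 1 ≤ l := hl.pos
      have h3 : m = 1 := by nlinarith
      rw [h3]; simp
  refine (card_le_card h1).trans ((card_union_le _ _).trans ?_)
  refine Nat.add_le_add ((card_union_le _ _).trans (Nat.add_le_add le_rfl card_le_two)) ?_
  unfold D
  exact card_image_le

lemma le_Bs {l : ℕ} (U : ℕ) : #(Ps (2 * l) U) ≤ #(Bs l U) + 2 + D 1 (2 * l) U := by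
  classical
  have h1 : Ps (2 * l) U ⊆ (Bs l U ∪ {1}) ∪
      (range (U + 1)).filter (fun q => q.Prime ∧ ((1 * q) ^ 2 + (2 * l) ^ 2).Prime) := by
    intro m hm
    unfold Ps at hm
    rw [mem_filter, mem_Icc] at hm
    obtain ⟨⟨hm1, hmU⟩, hmp⟩ := hm
    rw [mem_union, mem_union]
    rcases Nat.even_or_odd m with he | ho
    · exfalso
      obtain ⟨k, hk⟩ := he
      have h2 : m ^ 2 + (2 * l) ^ 2 = 2 * (2 * (k ^ 2 + l ^ 2)) := by rw [hk]; ring
      rw [h2] at hmp
      have h3 : 0 < k := by omega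
      have h4 : 0 < k ^ 2 := by positivity
      exact Nat.not_prime_mul (by norm_num) (by omega) hmp
    · by_cases hm2 : m = 1
      · left; right
        rw [hm2]; simp
      · by_cases hkp : m.Prime
        · right
          rw [mem_filter, mem_range]
          refine ⟨by omega, hkp, ?_⟩
          rw [one_mul]; exact hmp
        · left; left
          unfold Bs
          rw [mem_filter, mem_Icc]
          have hk0 : 2 ≤ m := by omega
          have hq := Nat.minFac_prime (n := m) (by omega)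
          have hdiv := Nat.div_mul_cancel (Nat.minFac_dvd m)
          have h2 : m.minFac < m := (Nat.not_prime_iff_minFac_lt hk0).1 hkp
          have h3 : 1 < m / m.minFac := by
            by_contra hcon
            push Not at hcon
            have h4 : m ≤ m.minFac := by
              calc m = m / m.minFac * m.minFac := hdiv.symm
                _ ≤ 1 * m.minFac := Nat.mul_le_mul_right _ hcon
                _ = _ := one_mul _
            omega
          have h5 : Odd (m / m.minFac) := by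
            rw [← hdiv] at ho
            exact (Nat.odd_mul.1 ho).1
          obtain ⟨n, hn⟩ := h5
          refine ⟨⟨hm1, hmU⟩, ⟨m.minFac, n, hq, by omega, ?_⟩, hmp⟩
          rw [← hn]; exact hdiv.symm
  refine (card_le_card h1).trans ((card_union_le _ _).trans ?_)
  refine Nat.add_le_add ((card_union_le _ _).trans (Nat.add_le_add le_rfl ?_)) ?_
  · rw [card_singleton]; norm_num
  · unfold D
    exact le_of_eq (by congr 1)

lemma Ps_eq (l U : ℕ) : (#(Ps l U) : ℝ) = Pool.Agent.N782.GN.PP (fun _ => 1) l U := by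
  unfold Ps Pool.Agent.N782.GN.PP
  rw [card_filter]
  push_cast
  refine sum_congr rfl fun n _ => ?_
  rw [one_mul, add_comm (l ^ 2)]

end Pool.Agent.N792.ACH
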