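import Pool.Agent.N792.ACH.Cnt

/-!
The two families for almost all `l` (helper792).
-/

set_option autoImplicit false

namespace Pool.Agent.N792.ACH

open Finset Filter Topology

/-- the logarithmic integral -/
noncomputable def li (u : ℝ) : ℝ := ∫ t in (2 : ℝ)..u, 1 / Real.log t

lemma li_ge {u : ℝ} (hu : 4 ≤ u) : u / Real.log u / 2 ≤ li u := by
  have hlog : 0 < Real.log u := Real.log_pos (by linarith)
  have hint : IntervalIntegrable (fun t : ℝ => 1 / Real.log t) MeasureTheory.volume 2 u := by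
    apply ContinuousOn.intervalIntegrable
    rw [Set.uIcc_of_le (by linarith)]
    apply ContinuousOn.div continuousOn_const
    · apply Real.continuousOn_log.mono
      intro t ht
      have := ht.1
      simp only [Set.mem_compl_iff, Set.mem_singleton_iff]
      linarith
    · intro t ht
      exact (Real.log_pos (by linarith [ht.1])).ne'
  have h1 : (u - 2) * (1 / Real.log u) ≤ li u := by
    have e1 : ∫ _ in (2 : ℝ)..u, (1 / Real.log u) = (u - 2) * (1 / Real.log u) := by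
      rw [intervalIntegral.integral_const, smul_eq_mul]
    rw [← e1]
    unfold li
    apply intervalIntegral.integral_mono_on (by linarith) (by simp) hint
    intro t ht
    have h2 : 0 < Real.log t := Real.log_pos (by linarith [ht.1])
    exact one_div_le_one_div_of_le h2 (Real.log_le_log (by linarith [ht.1]) ht.2)
  refine le_trans ?_ h1
  rw [mul_one_div, div_div, div_le_div_iff₀ (by positivity) hlog]
  nlinarith

lemma pp_two (l : ℕ) : Pool.Agent.N782.GN.pp ((2 * l : ℕ) : ℤ) = Pool.Agent.N782.GN.pp l := by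
  funext z
  unfold Pool.Agent.N782.GN.pp
  apply prod_congr
  · ext p
    simp only [mem_filter, mem_Icc]
    refine and_congr_right fun h3 => and_congr_right fun hp => not_congr ?_
    rw [Int.natCast_dvd_natCast, Int.natCast_dvd_natCast]
    constructor
    · intro h
      rcases (Nat.Prime.dvd_mul hp).1 h with h | h
      · have := Nat.le_of_dvd (by norm_num) h
        omega
      · exact h
    · intro h
      exact Dvd.dvd.mul_left h 2
  · intro p _; rfl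

lemma SS_two (l : ℕ) : Pool.Agent.N782.GN.SS ((2 * l : ℕ) : ℤ) = Pool.Agent.N782.GN.SS l := by
  unfold Pool.Agent.N782.GN.SS
  rw [pp_two]

lemma int_half (u : ℝ) : ∫ t in (2 : ℝ)..u, 1 / (2 * Real.log t) = 1 / 2 * li u := by
  unfold li
  rw [← intervalIntegral.integral_const_mul]
  refine intervalIntegral.integral_congr fun t _ => ?_
  exact (one_div_mul_one_div 2 (Real.log t)).symm

/-- the numerical step -/
lemma step {ε κ L u S P a d : ℝ} (hε : 0 < ε) (hκ : 0 < κ) (hL : 4 ≤ L) (hu1 : L ≤ u) (hu2 : u ≤ L ^ (3 / 2 : ℝ))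
    (hlog : 24 / (ε * κ) ≤ Real.log L) (h2 : 2 ≤ ε * κ / 16 * (u / Real.log u)) (hS : κ ≤ S)
    (hP : |P - 1 / 2 * S * li u| ≤ u / Real.log L ^ 2) (h3 : a ≤ P) (h4 : P ≤ a + 2 + d)
    (hd : d ≤ ε * κ / 16 * (u / Real.log u)) : |a - 1 / 2 * S * li u| ≤ ε * (1 / 2 * S * li u) := by
  have hu4 : 4 ≤ u := hL.trans hu1
  have hlogu : 0 < Real.log u := Real.log_pos (by linarith)
  have hlogL : 0 < Real.log L := Real.log_pos (by linarith)
  have hli := li_ge hu4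
  have hx0 : 0 < u / Real.log u := by positivity
  have hm : ε * κ / 4 * (u / Real.log u) ≤ ε * (1 / 2 * S * li u) := by
    have e1 : κ * (u / Real.log u / 2) ≤ S * li u := by
      apply mul_le_mul hS hli (by positivity) (by linarith)
    have e2 := mul_le_mul_of_nonneg_left e1 (show 0 ≤ ε / 2 by positivity)
    calc ε * κ / 4 * (u / Real.log u) = ε / 2 * (κ * (u / Real.log u / 2)) := by ring
      _ ≤ ε / 2 * (S * li u) := e2
      _ = _ := by ring
  have hq : u / Real.log L ^ 2 ≤ ε * κ / 16 * (u / Real.log u) := by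
    have e1 : Real.log u ≤ 3 / 2 * Real.log L := by
      rw [← Real.log_rpow (by linarith)]
      exact Real.log_le_log (by linarith) hu2
    have e2 : Real.log u ≤ ε * κ / 16 * Real.log L ^ 2 := by
      have hεκ : 0 < ε * κ := mul_pos hε hκ
      have e3 : 24 ≤ Real.log L * (ε * κ) := by
        rwa [div_le_iff₀ hεκ] at hlog
      nlinarith
    rw [← mul_div_assoc, div_le_div_iff₀ (by positivity) hlogu]
    have e4 := mul_le_mul_of_nonneg_left e2 (show 0 ≤ u by linarith)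
    linarith
  rw [abs_le] at hP ⊢
  constructor
  · linarith
  · linarith

/-- the conclusion for `l` -/
def Good (ε L : ℝ) (l : ℕ) : Prop := ∀ u : ℝ, L ^ (1 + ε) ≤ u → u ≤ L ^ (3 / 2 - ε) →
  (Odd l → |(#(As l ⌊u⌋₊) : ℝ) - 1 / 2 * Pool.Agent.N782.GN.SS l * li u| ≤
    ε * (1 / 2 * Pool.Agent.N782.GN.SS l * li u)) ∧
  |(#(Bs l ⌊u⌋₊) : ℝ) - 1 / 2 * Pool.Agent.N782.GN.SS l * li u| ≤ ε * (1 / 2 * Pool.Agent.N782.GN.SS l * li u)

open Classical in
/-- **the two families for almost all `l`** -/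
theorem main {ε : ℝ} (hε : 0 < ε) (hε4 : ε < 1 / 4) : ∃ L₀ : ℝ, ∀ L : ℝ, L₀ ≤ L →
    (#((Icc 1 ⌊L⌋₊).filter (fun l => ¬ Good ε L l)) : ℝ) ≤ ε * L := by
  obtain ⟨κ, hκ, hfew⟩ := few_small (ε := ε / 8) (by positivity)
  obtain ⟨ε₂, hε₂⟩ : ∃ ε₂ : ℝ, ε₂ = min (ε * κ / 16) (ε / 16) := ⟨_, rfl⟩
  have hε₂0 : 0 < ε₂ := by rw [hε₂]; apply lt_min <;> positivity
  have hε₂1 : ε₂ ≤ ε * κ / 16 := by rw [hε₂]; exact min_le_left _ _
  have hε₂2 : ε₂ ≤ ε / 16 := by rw [hε₂]; exact min_le_right _ _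
  obtain ⟨n1, u1, hD2⟩ := almost_D hε₂0 (c := 2) (Or.inr rfl)
  obtain ⟨n2, u2, hD1⟩ := almost_D hε₂0 (c := 1) (Or.inl rfl)
  obtain ⟨L₁, hL₁3, hA1⟩ := Pool.Agent.N782.GN.almost_all Pool.Agent.N782.GN.c_main Pool.Agent.N782.GN.c_ssl ε 2 hε
  obtain ⟨L₂, hL₂3, hA2⟩ := Pool.Agent.N782.GN.almost_all Pool.Agent.N782.GN.c_main Pool.Agent.N782.GN.c_ssl (ε / 2) 2
    (by positivity)
  -- large `u`
  have hlim : ∀ᶠ u : ℝ in atTop, 2 ≤ ε * κ / 16 * (u / Real.log u) := by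
    have h1 := Real.isLittleO_log_id_atTop
    have h2 := h1.def (show (0 : ℝ) < ε * κ / 32 by positivity)
    filter_upwards [h2, eventually_gt_atTop 1] with u hu hu1
    have hlog : 0 < Real.log u := Real.log_pos hu1
    rw [Real.norm_of_nonneg hlog.le, id, Real.norm_of_nonneg (by linarith)] at hu
    rw [← mul_div_assoc, le_div_iff₀ hlog]
    linarith
  obtain ⟨u3, hu3⟩ := eventually_atTop.1 hlim
  have hev : ∀ᶠ L : ℝ in atTop, max (max (24 / (ε * κ)) (16 / ε)) 1 ≤ Real.log L :=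
    Real.tendsto_log_atTop.eventually_ge_atTop _
  have hev2 : ∀ᶠ L : ℝ in atTop, 4 ≤ L ^ (ε / 2) := (tendsto_rpow_atTop (by positivity)).eventually_ge_atTop _
  obtain ⟨L₃, hL₃⟩ := eventually_atTop.1 (hev.and hev2)
  obtain ⟨L₄, hL₄⟩ : ∃ L₄ : ℝ, L₄ = max (max (max L₁ L₂) (max L₃ 4)) (max (max u1 u2) (max u3 ((n1 : ℝ) + n2 + 1))) := ⟨_, rfl⟩
  refine ⟨L₄, fun L hL => ?_⟩
  rw [hL₄] at hL
  simp only [max_le_iff] at hL
  obtain ⟨⟨⟨hLL1, hLL2⟩, hLL3, hL4⟩, ⟨hu1, hu2⟩, hu3', hn⟩ := hL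
  obtain ⟨hlog, hrp⟩ := hL₃ L hLL3
  simp only [max_le_iff] at hlog
  obtain ⟨⟨hlog1, hlog2⟩, hlog3⟩ := hlog
  have hL0 : 0 < L := by linarith
  have hfl : (⌊L⌋₊ : ℝ) ≤ L := Nat.floor_le hL0.le
  have hfl1 : L - 1 ≤ (⌊L⌋₊ : ℝ) := by
    have := (Nat.lt_floor_add_one L).le
    linarith
  have hlog2L : Real.log L ≤ Real.log (2 * L) := Real.log_le_log hL0 (by linarith)
  -- the five exceptional sets
  obtain ⟨E1, hE1⟩ : ∃ E : Finset ℕ, E = (Icc 1 ⌊L⌋₊).filter (fun l : ℕ => ¬ ∀ u : ℝ, L ^ (1 + ε) ≤ u →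
      u ≤ L ^ (3 / 2 - ε) → |Pool.Agent.N782.GN.PP (fun _ => 1) l ⌊u⌋₊ -
      Pool.Agent.N782.GN.SS l * ∫ t in (2 : ℝ)..u, 1 / (2 * Real.log t)| ≤ u / (Real.log L) ^ 2) := ⟨_, rfl⟩
  obtain ⟨E2, hE2⟩ : ∃ E : Finset ℕ, E = (Icc 1 ⌊2 * L⌋₊).filter (fun l : ℕ => ¬ ∀ u : ℝ, (2 * L) ^ (1 + ε / 2) ≤ u →
      u ≤ (2 * L) ^ (3 / 2 - ε / 2) → |Pool.Agent.N782.GN.PP (fun _ => 1) l ⌊u⌋₊ -
      Pool.Agent.N782.GN.SS l * ∫ t in (2 : ℝ)..u, 1 / (2 * Real.log t)| ≤ u / (Real.log (2 * L)) ^ 2) := ⟨_, rfl⟩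
  obtain ⟨E3, hE3⟩ : ∃ E : Finset ℕ, E = (Icc 1 ⌊L⌋₊).filter (fun l : ℕ => Pool.Agent.N782.GN.SS l < κ) := ⟨_, rfl⟩
  obtain ⟨E4, hE4⟩ : ∃ E : Finset ℕ, E = (range (⌊L⌋₊ + 1)).filter (fun l => ¬ ∀ u : ℝ, u1 ≤ u →
      (D 2 l ⌊u⌋₊ : ℝ) ≤ ε₂ * (u / Real.log u)) := ⟨_, rfl⟩
  obtain ⟨E5, hE5⟩ : ∃ E : Finset ℕ, E = (range (2 * ⌊L⌋₊ + 1)).filter (fun l => ¬ ∀ u : ℝ, u2 ≤ u →
      (D 1 l ⌊u⌋₊ : ℝ) ≤ ε₂ * (u / Real.log u)) := ⟨_, rfl⟩
  have hlogpos : 0 < Real.log L := by linarith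
  have c1 : (#E1 : ℝ) ≤ ε / 8 * L := by
    rw [hE1]
    refine le_trans (le_of_eq (by congr 1)) ((hA1 L hLL1).trans ?_)
    rw [div_le_iff₀ (by positivity)]
    have e1 : 16 ≤ Real.log L * ε := by rwa [div_le_iff₀ hε] at hlog2
    have e2 : 1 ≤ ε / 8 * Real.log L ^ 2 := by nlinarith
    nlinarith
  have c2 : (#E2 : ℝ) ≤ ε / 8 * L := by
    rw [hE2]
    refine le_trans (le_of_eq (by congr 1)) ((hA2 (2 * L) (by linarith)).trans ?_)
    have e00 : 0 < Real.log (2 * L) := by linarith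
    rw [div_le_iff₀ (by positivity)]
    have e1 : 16 ≤ Real.log L * ε := by rwa [div_le_iff₀ hε] at hlog2
    have e0 : 16 ≤ Real.log (2 * L) * ε := by nlinarith
    have e3 : 1 ≤ Real.log (2 * L) := by linarith
    have e2 : 2 ≤ ε / 8 * Real.log (2 * L) ^ 2 := by nlinarith
    nlinarith
  have c3 : (#E3 : ℝ) ≤ ε / 8 * L := by
    rw [hE3]
    refine le_trans (le_of_eq (by congr 1)) ((hfew ⌊L⌋₊).trans ?_)
    gcongr
  have c4 : (#E4 : ℝ) ≤ ε / 16 * L := by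
    rw [hE4]
    have h1 : n1 ≤ ⌊L⌋₊ := by
      have : (n1 : ℝ) ≤ (⌊L⌋₊ : ℝ) := by linarith [Nat.cast_nonneg (α := ℝ) n2]
      exact_mod_cast this
    refine (hD2 ⌊L⌋₊ h1).trans ?_
    calc ε₂ * (⌊L⌋₊ : ℝ) ≤ ε / 16 * (⌊L⌋₊ : ℝ) := by gcongr
      _ ≤ ε / 16 * L := by gcongr
  have c5 : (#E5 : ℝ) ≤ ε / 8 * L := by
    rw [hE5]
    have h1 : n2 ≤ 2 * ⌊L⌋₊ := by
      have : (n2 : ℝ) ≤ ((2 * ⌊L⌋₊ : ℕ) : ℝ) := by
        push_cast
        linarith [Nat.cast_nonneg (α := ℝ) n1]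
      exact_mod_cast this
    refine (hD1 (2 * ⌊L⌋₊) h1).trans ?_
    push_cast
    calc ε₂ * (2 * (⌊L⌋₊ : ℝ)) ≤ ε / 16 * (2 * (⌊L⌋₊ : ℝ)) := by gcongr
      _ ≤ ε / 16 * (2 * L) := by gcongr
      _ = ε / 8 * L := by ring
  have hinj : Function.Injective (fun l : ℕ => 2 * l) := fun a b h => by
    have : 2 * a = 2 * b := h
    omega
  have hsub : (Icc 1 ⌊L⌋₊).filter (fun l => ¬ Good ε L l) ⊆
      (E1 ∪ (E2.preimage (fun l => 2 * l) hinj.injOn)) ∪ (E3 ∪ (E4 ∪ (E5.preimage (fun l => 2 * l) hinj.injOn))) := by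
    intro l hl
    rw [mem_filter, mem_Icc] at hl
    obtain ⟨⟨hl1, hlL⟩, hbad⟩ := hl
    by_contra hcon
    simp only [mem_union, mem_preimage, not_or] at hcon
    obtain ⟨⟨m1, m2⟩, m3, m4, m5⟩ := hcon
    rw [hE1, mem_filter, mem_Icc, not_and, not_not] at m1
    rw [hE2, mem_filter, mem_Icc, not_and, not_not] at m2
    rw [hE3, mem_filter, mem_Icc, not_and, not_lt] at m3
    rw [hE4, mem_filter, mem_range, not_and, not_not] at m4
    rw [hE5, mem_filter, mem_range, not_and, not_not] at m5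
    have g1 := m1 ⟨hl1, hlL⟩
    have h2l : 2 * l ≤ ⌊2 * L⌋₊ := by
      apply Nat.le_floor
      push_cast
      have : (l : ℝ) ≤ (⌊L⌋₊ : ℝ) := by exact_mod_cast hlL
      linarith
    have g2 := m2 ⟨by omega, h2l⟩
    have g3 := m3 ⟨hl1, hlL⟩
    have g4 := m4 (by omega)
    have g5 := m5 (by omega)
    apply hbad
    intro u hua hub
    have hLu : L ≤ u := by
      refine le_trans ?_ hua
      calc L = L ^ (1 : ℝ) := (Real.rpow_one L).symm
        _ ≤ L ^ (1 + ε) := Real.rpow_le_rpow_of_exponent_le (by linarith) (by linarith)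
    have huL : u ≤ L ^ (3 / 2 : ℝ) := hub.trans (Real.rpow_le_rpow_of_exponent_le (by linarith) (by linarith))
    have hb := hu3 u (by linarith)
    have hx0 : 0 ≤ u / Real.log u := div_nonneg (by linarith) (Real.log_nonneg (by linarith))
    constructor
    · intro hodd
      have k1 := g1 u hua hub
      rw [int_half, ← Ps_eq] at k1
      have e : Pool.Agent.N782.GN.SS l * (1 / 2 * li u) = 1 / 2 * Pool.Agent.N782.GN.SS l * li u := by ring
      rw [e] at k1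
      refine step hε hκ hL4 hLu huL hlog1 hb g3 k1 ?_ ?_ ((g4 u (by linarith)).trans ?_)
      · exact_mod_cast As_le l ⌊u⌋₊
      · exact_mod_cast le_As hodd ⌊u⌋₊
      · gcongr
    · have hr1 : (2 * L) ^ (1 + ε / 2) ≤ u := by
        refine le_trans ?_ hua
        rw [Real.mul_rpow (by norm_num) hL0.le]
        have e1 : (2 : ℝ) ^ (1 + ε / 2) ≤ 4 := by
          calc (2 : ℝ) ^ (1 + ε / 2) ≤ 2 ^ (2 : ℝ) := Real.rpow_le_rpow_of_exponent_le (by norm_num) (by linarith)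
            _ = 4 := by norm_num
        calc (2 : ℝ) ^ (1 + ε / 2) * L ^ (1 + ε / 2) ≤ L ^ (ε / 2) * L ^ (1 + ε / 2) := by
              gcongr
              exact e1.trans hrp
          _ = L ^ (1 + ε) := by
              rw [← Real.rpow_add hL0]
              congr 1
              ring
      have hr2 : u ≤ (2 * L) ^ (3 / 2 - ε / 2) := by
        refine hub.trans ?_
        calc L ^ (3 / 2 - ε) ≤ L ^ (3 / 2 - ε / 2) := Real.rpow_le_rpow_of_exponent_le (by linarith) (by linarith)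
          _ ≤ (2 * L) ^ (3 / 2 - ε / 2) := Real.rpow_le_rpow hL0.le (by linarith) (by linarith)
      have k1 := g2 u hr1 hr2
      rw [int_half, ← Ps_eq, SS_two] at k1
      have e : Pool.Agent.N782.GN.SS l * (1 / 2 * li u) = 1 / 2 * Pool.Agent.N782.GN.SS l * li u := by ring
      rw [e] at k1
      have k2 : u / Real.log (2 * L) ^ 2 ≤ u / Real.log L ^ 2 := by
        gcongr
        linarith
      refine step hε hκ hL4 hLu huL hlog1 hb g3 (k1.trans k2) ?_ ?_ ((g5 u (by linarith)).trans ?_)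
      · exact_mod_cast Bs_le l ⌊u⌋₊
      · exact_mod_cast le_Bs ⌊u⌋₊
      · gcongr
  have pp : ∀ E : Finset ℕ, #(E.preimage (fun l => 2 * l) hinj.injOn) ≤ #E := by
    intro E
    rw [← card_image_of_injective _ hinj]
    apply card_le_card
    intro x hx
    obtain ⟨y, hy, rfl⟩ := mem_image.1 hx
    exact mem_preimage.1 hy
  have p2 := pp E2
  have p5 := pp E5
  have hcard : #((Icc 1 ⌊L⌋₊).filter (fun l => ¬ Good ε L l)) ≤ (#E1 + #E2) + (#E3 + (#E4 + #E5)) := by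
    refine (card_le_card hsub).trans ((card_union_le _ _).trans ?_)
    refine Nat.add_le_add ((card_union_le _ _).trans (Nat.add_le_add le_rfl p2)) ?_
    refine (card_union_le _ _).trans (Nat.add_le_add le_rfl ?_)
    exact (card_union_le _ _).trans (Nat.add_le_add le_rfl p5)
  have hcard' : (#((Icc 1 ⌊L⌋₊).filter (fun l => ¬ Good ε L l)) : ℝ) ≤ (#E1 + #E2) + (#E3 + (#E4 + #E5)) := by
    exact_mod_cast hcard
  nlinarith

end Pool.Agent.N792.ACH
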