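import Mathlib
import Pool.Agent.Helper379.Div3
import Pool.Agent.Helper602.MK.J3

/-!
For almost all `l` the number of the primes `q ≤ u` for which `(c q)² + l²`, `c = 1, 2`, is a prime, is at most
`ε u / log u`, for all large `u` (helper792). `crt_count` is copied from `Pool.Agent.H373R2.BH.Local`.
-/

set_option autoImplicit false

namespace Pool.Agent.N792.ACH

open Finset

/-- chinese remainder counting -/
lemma crt_count (s : Finset ℕ) (hs : ∀ p ∈ s, p.Prime) (Q : ℕ → ℕ → Prop) [∀ p, DecidablePred (Q p)] :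
    #{r ∈ range (∏ p ∈ s, p) | ∀ p ∈ s, Q p (r % p)} = ∏ p ∈ s, #{r ∈ range p | Q p r} := by
  classical
  induction s using Finset.induction_on with
  | empty => simp
  | insert p s hp ih =>
    have hpp := hs p (mem_insert_self _ _)
    have hs' : ∀ q ∈ s, q.Prime := fun q hq => hs q (mem_insert_of_mem hq)
    rw [prod_insert hp, prod_insert hp, ← ih hs']
    set N := ∏ q ∈ s, q with hN
    have hNpos : 0 < N := prod_pos (fun q hq => (hs' q hq).pos)
    have hcop : Nat.Coprime p N := by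
      rw [hN]
      exact Nat.Coprime.prod_right fun q hq => (Nat.coprime_primes hpp (hs' q hq)).2 (by
        rintro rfl; exact hp hq)
    have hinj : Set.InjOn (fun r => (r % p, r % N)) (range (p * N) : Set ℕ) := by
      intro a ha b hb hab
      simp only [coe_range, Set.mem_Iio] at ha hb
      simp only [Prod.mk.injEq] at hab
      have h1 : a ≡ b [MOD p * N] := (Nat.modEq_and_modEq_iff_modEq_mul hcop).1 ⟨hab.1, hab.2⟩
      exact Nat.ModEq.eq_of_lt_of_lt h1 ha hb
    have himg : (range (p * N)).image (fun r => (r % p, r % N)) = range p ×ˢ range N := by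
      apply eq_of_subset_of_card_le
      · intro x hx
        rw [mem_image] at hx
        obtain ⟨r, _, rfl⟩ := hx
        rw [mem_product, mem_range, mem_range]
        exact ⟨Nat.mod_lt _ hpp.pos, Nat.mod_lt _ hNpos⟩
      · rw [card_image_of_injOn hinj]; simp
    rw [← card_product]
    have h2 : ({r ∈ range p | Q p r} ×ˢ {r ∈ range N | ∀ q ∈ s, Q q (r % q)}) =
        ((range (p * N)).filter (fun r => ∀ q ∈ insert p s, Q q (r % q))).image (fun r => (r % p, r % N)) := by
      ext x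
      simp only [mem_product, mem_filter, mem_image, mem_range]
      constructor
      · rintro ⟨⟨h1, h2⟩, h3, h4⟩
        have hx : x ∈ range p ×ˢ range N := by rw [mem_product, mem_range, mem_range]; exact ⟨h1, h3⟩
        rw [← himg, mem_image] at hx
        obtain ⟨r, hr, rfl⟩ := hx
        refine ⟨r, ⟨mem_range.1 hr, ?_⟩, rfl⟩
        intro q hq
        rcases mem_insert.1 hq with rfl | hq
        · exact h2
        · have := h4 q hq
          rwa [Nat.mod_mod_of_dvd _ (dvd_prod_of_mem _ hq)] at this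
      · rintro ⟨r, ⟨h1, h2⟩, rfl⟩
        refine ⟨⟨Nat.mod_lt _ hpp.pos, h2 p (mem_insert_self _ _)⟩, Nat.mod_lt _ hNpos, ?_⟩
        intro q hq
        rw [Nat.mod_mod_of_dvd _ (dvd_prod_of_mem _ hq)]
        exact h2 q (mem_insert_of_mem hq)
    rw [h2, card_image_of_injOn]
    intro a ha b hb hab
    exact hinj (by simpa using (mem_filter.1 ha).1) (by simpa using (mem_filter.1 hb).1) hab

/-- finite sets of primes `1` modulo `4` with a small product -/
lemma exists_T {δ : ℝ} (hδ : 0 < δ) : ∃ T : Finset ℕ, (∀ p ∈ T, p.Prime ∧ p % 4 = 1) ∧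
    ∏ p ∈ T, (1 - 2 / (p : ℝ)) ≤ δ := by
  classical
  have h1 := Pool.Agent.Helper379.Div3.not_summable_inv_primes_mod (q := 4) (a := 1) isUnit_one
  obtain ⟨f, hf⟩ : ∃ f : ℕ → ℝ, f = fun n : ℕ => if n.Prime ∧ (n : ZMod 4) = 1 then (1 : ℝ) / n else 0 := ⟨_, rfl⟩
  rw [← hf] at h1
  have hf0 : ∀ n, 0 ≤ f n := by intro n; rw [hf]; simp only; split_ifs <;> positivity
  obtain ⟨N, hN⟩ : ∃ N : ℕ, Real.log (1 / δ) ≤ ∑ n ∈ range N, f n := by
    by_contra hcon
    push Not at hcon
    exact h1 (summable_of_sum_range_le hf0 (fun n => (hcon n).le))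
  refine ⟨(range N).filter (fun n : ℕ => n.Prime ∧ (n : ZMod 4) = 1), ?_, ?_⟩
  · intro p hp
    obtain ⟨-, h2, h3⟩ := mem_filter.1 hp
    refine ⟨h2, ?_⟩
    have h4 : ((p : ℕ) : ZMod 4) = ((1 : ℕ) : ZMod 4) := by rw [h3]; simp
    exact (ZMod.natCast_eq_natCast_iff' p 1 4).1 h4
  · have h2 : ∏ p ∈ (range N).filter (fun n : ℕ => n.Prime ∧ (n : ZMod 4) = 1), (1 - 2 / (p : ℝ)) ≤
        ∏ p ∈ (range N).filter (fun n : ℕ => n.Prime ∧ (n : ZMod 4) = 1), Real.exp (-(2 / (p : ℝ))) := by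
      apply prod_le_prod
      · intro p hp
        have hp2 : (2 : ℝ) ≤ p := by exact_mod_cast (mem_filter.1 hp).2.1.two_le
        have : 2 / (p : ℝ) ≤ 1 := by rw [div_le_one (by linarith)]; exact hp2
        linarith
      · intro p hp
        have := Real.add_one_le_exp (-(2 / (p : ℝ)))
        linarith
    refine h2.trans ?_
    rw [← Real.exp_sum]
    have h3 : ∑ p ∈ (range N).filter (fun n : ℕ => n.Prime ∧ (n : ZMod 4) = 1), (-(2 / (p : ℝ))) ≤ - ∑ n ∈ range N, f n := by
      rw [sum_filter, ← sum_neg_distrib]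
      apply sum_le_sum
      intro n _
      rw [hf]
      simp only
      split_ifs with h
      · have : (0 : ℝ) ≤ 1 / n := by positivity
        have e : 2 / (n : ℝ) = 2 * (1 / n) := by ring
        rw [e]; linarith
      · simp
    calc Real.exp (∑ p ∈ (range N).filter (fun n : ℕ => n.Prime ∧ (n : ZMod 4) = 1), (-(2 / (p : ℝ))))
        ≤ Real.exp (-Real.log (1 / δ)) := Real.exp_le_exp.2 (by linarith)
      _ = δ := by rw [← Real.log_inv, one_div, inv_inv, Real.exp_log hδ]

/-- few classes modulo a prime `1` modulo `4` avoid the two roots -/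
lemma two_roots {p : ℕ} (hp : p.Prime) (hp4 : p % 4 = 1) {b : ℕ} (hb : ¬ p ∣ b) :
    #{r ∈ range p | ¬ p ∣ b ^ 2 + r ^ 2} ≤ p - 2 := by
  classical
  haveI : Fact p.Prime := ⟨hp⟩
  obtain ⟨i, hi⟩ := ZMod.exists_sq_eq_neg_one_iff.2 (show p % 4 ≠ 3 by omega)
  have hb0 : (b : ZMod p) ≠ 0 := by
    rwa [Ne, ZMod.natCast_eq_zero_iff]
  have hi0 : i ≠ 0 := by
    rintro rfl
    rw [mul_zero, neg_eq_zero] at hi
    exact one_ne_zero hi
  have hp2 : p ≠ 2 := by omega
  have h2 : (2 : ZMod p) ≠ 0 := by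
    have : ((2 : ℕ) : ZMod p) ≠ 0 := by
      rw [Ne, ZMod.natCast_eq_zero_iff]
      intro h
      have := Nat.le_of_dvd (by norm_num) h
      have := hp.two_le
      omega
    exact_mod_cast this
  have hne : ((b : ZMod p) * i).val ≠ (-((b : ZMod p) * i)).val := by
    intro h
    have h3 := ZMod.val_injective p h
    have h4 : 2 * ((b : ZMod p) * i) = 0 := by linear_combination h3
    rcases mul_eq_zero.1 h4 with h5 | h5
    · exact h2 h5
    · rcases mul_eq_zero.1 h5 with h6 | h6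
      · exact hb0 h6
      · exact hi0 h6
  have hroot : ∀ z : ZMod p, z ^ 2 = -((b : ZMod p) ^ 2) → p ∣ b ^ 2 + z.val ^ 2 := by
    intro z hz
    rw [← ZMod.natCast_eq_zero_iff]
    push_cast
    rw [ZMod.natCast_zmod_val, hz]
    ring
  have hsub : {r ∈ range p | ¬ p ∣ b ^ 2 + r ^ 2} ⊆
      ((range p).erase ((b : ZMod p) * i).val).erase (-((b : ZMod p) * i)).val := by
    intro r hr
    rw [mem_filter] at hr
    rw [mem_erase, mem_erase]
    refine ⟨?_, ?_, hr.1⟩
    · rintro rfl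
      apply hr.2
      apply hroot
      rw [sq, sq] at *
      linear_combination (b : ZMod p) * b * hi.symm
    · rintro rfl
      apply hr.2
      apply hroot
      rw [sq, sq] at *
      linear_combination (b : ZMod p) * b * hi.symm
  refine (card_le_card hsub).trans ?_
  rw [card_erase_of_mem, card_erase_of_mem, card_range]
  · omega
  · rw [mem_range]; exact ZMod.val_lt _
  · rw [mem_erase, mem_range]
    exact ⟨hne.symm, ZMod.val_lt _⟩

open Classical in
/-- the classes of `q` modulo `P` -/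
noncomputable def Rs (c P l : ℕ) : Finset ℕ := (range P).filter (fun a => Nat.Coprime P a ∧ ∀ p ∈ P.primeFactors,
  ¬ p ∣ (c * a) ^ 2 + l ^ 2)

lemma prodT {T : Finset ℕ} (hT : ∀ p ∈ T, p.Prime ∧ p % 4 = 1) : (∏ p ∈ T, p).primeFactors = T := by
  apply Nat.primeFactors_prod
  exact fun p hp => (hT p hp).1

/-- the average of the number of the classes -/
lemma sum_Rs {T : Finset ℕ} (hT : ∀ p ∈ T, p.Prime ∧ p % 4 = 1) {c : ℕ} (hc : c = 1 ∨ c = 2) :
    ∑ l ∈ range (∏ p ∈ T, p), (#(Rs c (∏ p ∈ T, p) l) : ℝ) ≤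
      Nat.totient (∏ p ∈ T, p) * ((∏ p ∈ T, p : ℕ) * ∏ p ∈ T, (1 - 2 / (p : ℝ))) := by
  classical
  obtain ⟨P, hP⟩ : ∃ P : ℕ, P = ∏ p ∈ T, p := ⟨_, rfl⟩
  have hPf : P.primeFactors = T := by rw [hP]; exact prodT hT
  rw [← hP]
  have h1 : ∑ l ∈ range P, (#(Rs c P l) : ℝ) = ∑ a ∈ (range P).filter (fun a => Nat.Coprime P a),
      (#((range P).filter (fun l => ∀ p ∈ T, ¬ p ∣ (c * a) ^ 2 + l ^ 2)) : ℝ) := by
    have e1 : ∀ l ∈ range P, (#(Rs c P l) : ℝ) = ∑ a ∈ (range P).filter (fun a => Nat.Coprime P a),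
        if ∀ p ∈ T, ¬ p ∣ (c * a) ^ 2 + l ^ 2 then (1 : ℝ) else 0 := by
      intro l _
      unfold Rs
      rw [hPf, ← filter_filter, card_filter]
      push_cast
      rfl
    rw [sum_congr rfl e1, sum_comm]
    refine sum_congr rfl fun a _ => ?_
    rw [card_filter]
    push_cast
    rfl
  rw [h1]
  have h2 : ∀ a ∈ (range P).filter (fun a => Nat.Coprime P a),
      (#((range P).filter (fun l => ∀ p ∈ T, ¬ p ∣ (c * a) ^ 2 + l ^ 2)) : ℝ) ≤ P * ∏ p ∈ T, (1 - 2 / (p : ℝ)) := by
    intro a ha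
    have hcop := (mem_filter.1 ha).2
    have e1 : #((range P).filter (fun l => ∀ p ∈ T, ¬ p ∣ (c * a) ^ 2 + l ^ 2)) =
        ∏ p ∈ T, #((range p).filter (fun r => ¬ p ∣ (c * a) ^ 2 + r ^ 2)) := by
      have e0 := crt_count T (fun p hp => (hT p hp).1) (fun (p r : ℕ) => ¬ p ∣ (c * a) ^ 2 + r ^ 2)
      rw [← hP] at e0
      rw [← e0]
      congr 1
      ext l
      rw [mem_filter, mem_filter]
      refine and_congr_right fun _ => ?_
      refine forall₂_congr fun p _ => not_congr ?_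
      rw [Nat.dvd_iff_mod_eq_zero, Nat.dvd_iff_mod_eq_zero]
      have : ((c * a) ^ 2 + l ^ 2) % p = ((c * a) ^ 2 + (l % p) ^ 2) % p := by
        conv_lhs => rw [Nat.add_mod, Nat.pow_mod l]
        rw [Nat.add_mod _ ((l % p) ^ 2)]
      rw [this]
    rw [e1]
    push_cast
    have e2 : (P : ℝ) = ∏ p ∈ T, (p : ℝ) := by rw [hP]; push_cast; rfl
    rw [e2, ← prod_mul_distrib]
    apply prod_le_prod (fun _ _ => Nat.cast_nonneg _)
    intro p hp
    obtain ⟨hpp, hp4⟩ := hT p hp
    have hpa : ¬ p ∣ c * a := by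
      intro h
      rcases (Nat.Prime.dvd_mul hpp).1 h with h | h
      · have := Nat.le_of_dvd (by omega) h
        have := hpp.two_le
        rcases hc with hc | hc <;> omega
      · have h3 : p ∣ P := by rw [hP]; exact dvd_prod_of_mem _ hp
        have h4 := Nat.dvd_gcd h3 h
        rw [hcop] at h4
        exact hpp.one_lt.ne' (Nat.dvd_one.1 h4)
    have h5 := two_roots hpp hp4 hpa
    have h6 : (#{r ∈ range p | ¬ p ∣ (c * a) ^ 2 + r ^ 2} : ℝ) ≤ ((p - 2 : ℕ) : ℝ) := by exact_mod_cast h5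
    rw [Nat.cast_sub hpp.two_le] at h6
    have hp0 : (p : ℝ) ≠ 0 := by exact_mod_cast hpp.ne_zero
    have e3 : (p : ℝ) * (1 - 2 / p) = p - (2 : ℕ) := by
      field_simp
      push_cast
      ring
    rw [e3]
    convert h6
  refine (sum_le_sum h2).trans ?_
  rw [sum_const, nsmul_eq_mul]
  have e3 : #((range P).filter (fun a => Nat.Coprime P a)) = Nat.totient P := rfl
  rw [e3]

end Pool.Agent.N792.ACH
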